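import Pool.Agent.H81.LU.YStmts

/-!
Project LU, part Y, module MCY: the cyclic quotients of the Morse complex are models of the cyclic
covers.
-/

set_option autoImplicit false
set_option linter.unusedVariables false
set_option linter.unusedSectionVars false

open scoped BigOperators
open Pool.H3.L2

noncomputable section

namespace Pool.LU

namespace MCY

/-- A set with an action and descending vertices. -/
structure Act (V : Type) (adj : V → V → Prop) where
  X : Type
  ρ : V → X → X
  des : X → Finset V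
  ρρ : ∀ v x, ρ v (ρ v x) = x
  comm : ∀ u v, adj u v → ∀ x, ρ u (ρ v x) = ρ v (ρ u x)
  des_self : ∀ v x, v ∈ des (ρ v x) ↔ v ∉ des x
  des_ne : ∀ u v, adj u v → ∀ x, u ∈ des (ρ v x) ↔ u ∈ des x

section abs

variable {V : Type} [DecidableEq V] {adj : V → V → Prop} (A : Act V adj)

/-- go up in the direction `u` -/
def stp (u : V) (z : A.X) : A.X := if u ∈ A.des z then z else A.ρ u z

/-- go up in all directions of the list -/
def topL (l : List V) (y : A.X) : A.X := l.foldr (fun u z => stp A u z) y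

theorem topL_cons (u : V) (l : List V) (y : A.X) : topL A (u :: l) y = stp A u (topL A l y) := rfl

theorem stp_ρ {u v : V} (h : adj u v) (z : A.X) : stp A u (A.ρ v z) = A.ρ v (stp A u z) := by
  unfold stp
  by_cases hu : u ∈ A.des z
  · rw [if_pos ((A.des_ne u v h z).2 hu), if_pos hu]
  · rw [if_neg (fun hh => hu ((A.des_ne u v h z).1 hh)), if_neg hu, A.comm u v h]

theorem topL_ρ (l : List V) {v : V} (h : ∀ u ∈ l, adj u v) (y : A.X) :
    topL A l (A.ρ v y) = A.ρ v (topL A l y) := by
  induction l with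
  | nil => rfl
  | cons u l ih =>
    rw [topL_cons, topL_cons, ih (fun a ha => h a (List.mem_cons_of_mem _ ha)),
      stp_ρ A (h u List.mem_cons_self)]

theorem des_topL (l : List V) {v : V} (h : ∀ u ∈ l, adj v u) (y : A.X) :
    v ∈ A.des (topL A l y) ↔ v ∈ A.des y := by
  induction l with
  | nil => rfl
  | cons u l ih =>
    rw [topL_cons, ← ih (fun a ha => h a (List.mem_cons_of_mem _ ha))]
    unfold stp
    split_ifs
    · rfl
    · exact A.des_ne v u (h u List.mem_cons_self) _

/-- The list consists of different pairwise adjacent vertices. -/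
def Gd (adj : V → V → Prop) (l : List V) : Prop :=
  l.Nodup ∧ ∀ u ∈ l, ∀ v ∈ l, u ≠ v → adj u v

theorem Gd.tail {u : V} {l : List V} (h : Gd adj (u :: l)) : Gd adj l :=
  ⟨(List.nodup_cons.1 h.1).2, fun a ha b hb => h.2 a (List.mem_cons_of_mem _ ha) b
    (List.mem_cons_of_mem _ hb)⟩

theorem Gd.adj_right {u : V} {l : List V} (h : Gd adj (u :: l)) : ∀ v ∈ l, adj v u := by
  intro v hv
  refine h.2 v (List.mem_cons_of_mem _ hv) u List.mem_cons_self ?_
  rintro rfl
  exact (List.nodup_cons.1 h.1).1 hv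

theorem Gd.adj_left {u : V} {l : List V} (h : Gd adj (u :: l)) : ∀ v ∈ l, adj u v := by
  intro v hv
  refine h.2 u List.mem_cons_self v (List.mem_cons_of_mem _ hv) ?_
  rintro rfl
  exact (List.nodup_cons.1 h.1).1 hv

theorem stp_ρ_self (v : V) (z : A.X) : stp A v (A.ρ v z) = stp A v z := by
  unfold stp
  by_cases hv : v ∈ A.des z
  · rw [if_pos hv, if_neg (fun hh => (A.des_self v z).1 hh hv), A.ρρ]
  · rw [if_neg hv, if_pos ((A.des_self v z).2 hv)]

theorem topL_ρ_mem (l : List V) (hl : Gd adj l) {v : V} (hv : v ∈ l) (y : A.X) :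
    topL A l (A.ρ v y) = topL A l y := by
  induction l with
  | nil => exact absurd hv List.not_mem_nil
  | cons u l ih =>
    rw [topL_cons, topL_cons]
    rcases List.mem_cons.1 hv with rfl | hv'
    · rw [topL_ρ A l hl.adj_right, stp_ρ_self]
    · rw [ih hl.tail hv']

theorem mem_des_topL (l : List V) (hl : Gd adj l) {v : V} (hv : v ∈ l) (y : A.X) :
    v ∈ A.des (topL A l y) := by
  induction l with
  | nil => exact absurd hv List.not_mem_nil
  | cons u l ih =>
    rw [topL_cons]
    rcases List.mem_cons.1 hv with rfl | hv'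
    · unfold stp
      split_ifs with h1
      · exact h1
      · exact (A.des_self _ _).2 h1
    · have h2 := ih hl.tail hv'
      unfold stp
      split_ifs with h1
      · exact h2
      · exact (A.des_ne v u (hl.adj_right v hv') _).2 h2

theorem topL_of_subset (l : List V) (y : A.X) (h : ∀ v ∈ l, v ∈ A.des y) : topL A l y = y := by
  induction l with
  | nil => rfl
  | cons u l ih =>
    rw [topL_cons, ih (fun a ha => h a (List.mem_cons_of_mem _ ha))]
    unfold stp
    rw [if_pos (h u List.mem_cons_self)]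

variable (F : Type) [CommRing F]

/-- the sign -/
def sgnL (l : List V) (y : A.X) : F := (l.map fun u => if u ∈ A.des y then (1 : F) else -1).prod

theorem sgnL_cons (u : V) (l : List V) (y : A.X) :
    sgnL A F (u :: l) y = (if u ∈ A.des y then (1 : F) else -1) * sgnL A F l y := by
  unfold sgnL
  rw [List.map_cons, List.prod_cons]

theorem sgnL_ρ (l : List V) {v : V} (h : ∀ u ∈ l, adj u v) (y : A.X) :
    sgnL A F l (A.ρ v y) = sgnL A F l y := by
  induction l with
  | nil => rfl
  | cons u l ih =>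
    rw [sgnL_cons, sgnL_cons, ih (fun a ha => h a (List.mem_cons_of_mem _ ha))]
    simp only [A.des_ne u v (h u List.mem_cons_self) y]

theorem sgnL_ρ_mem (l : List V) (hl : Gd adj l) {v : V} (hv : v ∈ l) (y : A.X) :
    sgnL A F l (A.ρ v y) = - sgnL A F l y := by
  induction l with
  | nil => exact absurd hv List.not_mem_nil
  | cons u l ih =>
    rw [sgnL_cons, sgnL_cons]
    rcases List.mem_cons.1 hv with rfl | hv'
    · rw [sgnL_ρ A F l hl.adj_right]
      by_cases h1 : v ∈ A.des y
      · rw [if_pos h1, if_neg (fun hh => (A.des_self v y).1 hh h1)]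
        ring
      · rw [if_neg h1, if_pos ((A.des_self v y).2 h1)]
        ring
    · rw [ih hl.tail hv']
      simp only [A.des_ne u v (hl.adj_left v hv') y]
      ring

theorem sgnL_of_subset (l : List V) (y : A.X) (h : ∀ v ∈ l, v ∈ A.des y) :
    sgnL A F l y = 1 := by
  induction l with
  | nil => rfl
  | cons u l ih =>
    rw [sgnL_cons, ih (fun a ha => h a (List.mem_cons_of_mem _ ha)),
      if_pos (h u List.mem_cons_self), one_mul]

theorem sgnL_sq (l : List V) (y : A.X) : sgnL A F l y * sgnL A F l y = 1 := by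
  induction l with
  | nil => show (1 : F) * 1 = 1; rw [one_mul]
  | cons u l ih =>
    rw [sgnL_cons]
    split_ifs
    · rw [one_mul, ih]
    · linear_combination ih

theorem anti_topL (f : A.X → F) (l : List V) (hl : Gd adj l)
    (hf : ∀ v ∈ l, ∀ y, f (A.ρ v y) = - f y) (y : A.X) :
    f (topL A l y) = sgnL A F l y * f y := by
  induction l with
  | nil => show f y = 1 * f y; rw [one_mul]
  | cons u l ih =>
    have h1 := ih hl.tail (fun v hv => hf v (List.mem_cons_of_mem _ hv))
    have h2 := des_topL A l hl.adj_left y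
    rw [topL_cons, sgnL_cons]
    unfold stp
    by_cases h3 : u ∈ A.des y
    · rw [if_pos (h2.2 h3), if_pos h3, h1, one_mul]
    · rw [if_neg (fun hh => h3 (h2.1 hh)), if_neg h3, hf u List.mem_cons_self, h1]
      ring

theorem anti_top (f : A.X → F) (l : List V) (hl : Gd adj l)
    (hf : ∀ v ∈ l, ∀ y, f (A.ρ v y) = - f y) (y : A.X) :
    f y = sgnL A F l y * f (topL A l y) := by
  rw [anti_topL A F f l hl hf y, ← mul_assoc, sgnL_sq, one_mul]

end abs

section cyc

variable {V : Type} [Fintype V] [DecidableEq V] {adj : V → V → Prop} (H : HSet V adj)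
  (m : ℕ) [NeZero m]

/-- adjacency in both directions -/
def Ad2 (adj : V → V → Prop) (u v : V) : Prop := adj u v ∧ adj v u

omit [Fintype V] [DecidableEq V] in
theorem gd_toList {σ : Finset V} (h : Clq adj σ) : Gd (Ad2 adj) σ.toList :=
  ⟨σ.nodup_toList, fun u hu v hv huv =>
    ⟨h u (Finset.mem_toList.1 hu) v (Finset.mem_toList.1 hv) huv,
      h v (Finset.mem_toList.1 hv) u (Finset.mem_toList.1 hu) huv.symm⟩⟩

theorem wr_congr {x y : H.X} (h : H.a x = H.a y) : H.wr x = H.wr y := by
  unfold HSet.wr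
  rw [h]

theorem cov_pos {v : V} {x : H.X × ZMod m} (h : v ∈ H.des x.1) :
    H.cov m v x = (H.ρ v x.1, x.2 + (H.wr x.1 : ZMod m)) := by
  unfold HSet.cov
  rw [if_pos h]

theorem cov_neg {v : V} {x : H.X × ZMod m} (h : v ∉ H.des x.1) :
    H.cov m v x = (H.ρ v x.1, x.2 - (H.wr (H.ρ v x.1) : ZMod m)) := by
  unfold HSet.cov
  rw [if_neg h]

/-- the cyclic cover -/
def covA : Act V (Ad2 adj) where
  X := H.X × ZMod m
  ρ := H.cov m
  des x := H.des x.1
  ρρ := by
    rintro v ⟨x, i⟩
    by_cases h : v ∈ H.des x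
    · have h1 : v ∉ H.des (H.ρ v x) := fun hh => (H.des_self v x).1 hh h
      rw [cov_pos H m (x := (x, i)) h, cov_neg H m (x := (H.ρ v x, i + (H.wr x : ZMod m))) h1]
      simp only [H.ρρ, add_sub_cancel_right]
    · have h1 : v ∈ H.des (H.ρ v x) := (H.des_self v x).2 h
      rw [cov_neg H m (x := (x, i)) h,
        cov_pos H m (x := (H.ρ v x, i - (H.wr (H.ρ v x) : ZMod m))) h1]
      simp only [H.ρρ, sub_add_cancel]
  comm := by
    rintro u v ⟨huv, hvu⟩ ⟨x, i⟩
    have key : ∀ (z : H.X), u ∈ H.des z → v ∈ H.des z → H.wr (H.ρ u z) = H.wr (H.ρ v z) :=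
      fun z hu hv => wr_congr H (H.a_step u v z hu hv)
    have hc := H.comm u v huv x
    have h1 : ∀ z, u ∈ H.des (H.ρ v z) ↔ u ∈ H.des z := H.des_ne u v huv
    have h2 : ∀ z, v ∈ H.des (H.ρ u z) ↔ v ∈ H.des z := H.des_ne v u hvu
    by_cases hu : u ∈ H.des x
    · by_cases hv : v ∈ H.des x
      · rw [cov_pos H m (x := (x, i)) hv, cov_pos H m (x := (x, i)) hu,
          cov_pos H m (v := u) (x := (H.ρ v x, i + (H.wr x : ZMod m))) ((h1 x).2 hu),
          cov_pos H m (v := v) (x := (H.ρ u x, i + (H.wr x : ZMod m))) ((h2 x).2 hv)]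
        simp only [hc, key x hu hv]
      · rw [cov_neg H m (x := (x, i)) hv, cov_pos H m (x := (x, i)) hu,
          cov_pos H m (v := u) (x := (H.ρ v x, i - (H.wr (H.ρ v x) : ZMod m))) ((h1 x).2 hu),
          cov_neg H m (v := v) (x := (H.ρ u x, i + (H.wr x : ZMod m)))
            (fun hh => hv ((h2 x).1 hh))]
        have h3 := key (H.ρ v x) ((h1 x).2 hu) ((H.des_self v x).2 hv)
        rw [H.ρρ, hc] at h3
        simp only [hc, h3, sub_add_cancel, add_sub_cancel_right]
    · by_cases hv : v ∈ H.des x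
      · rw [cov_pos H m (x := (x, i)) hv, cov_neg H m (x := (x, i)) hu,
          cov_neg H m (v := u) (x := (H.ρ v x, i + (H.wr x : ZMod m)))
            (fun hh => hu ((h1 x).1 hh)),
          cov_pos H m (v := v) (x := (H.ρ u x, i - (H.wr (H.ρ u x) : ZMod m))) ((h2 x).2 hv)]
        have h3 := key (H.ρ u x) ((H.des_self u x).2 hu) ((h2 x).2 hv)
        rw [H.ρρ, ← hc] at h3
        simp only [← hc, ← h3, sub_add_cancel, add_sub_cancel_right]
      · rw [cov_neg H m (x := (x, i)) hv, cov_neg H m (x := (x, i)) hu,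
          cov_neg H m (v := u) (x := (H.ρ v x, i - (H.wr (H.ρ v x) : ZMod m)))
            (fun hh => hu ((h1 x).1 hh)),
          cov_neg H m (v := v) (x := (H.ρ u x, i - (H.wr (H.ρ u x) : ZMod m)))
            (fun hh => hv ((h2 x).1 hh))]
        have h3 := key (H.ρ u (H.ρ v x)) ((H.des_self u _).2 (fun hh => hu ((h1 x).1 hh)))
          ((h2 _).2 ((H.des_self v x).2 hv))
        rw [H.ρρ, hc, H.ρρ] at h3
        simp only [hc, h3]
  des_self := fun v x => H.des_self v x.1
  des_ne := fun u v h x => H.des_ne u v h.1 x.1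

variable (F : Type) [CommRing F]

/-- extension by zero -/
def exF (w : H.toW.Cell × ZMod m → F) (σ : Finset V) (x : H.X × ZMod m) : F := by
  classical
  exact if h : Clq adj σ ∧ σ ⊆ H.des x.1 then w (⟨(x.1, σ), h⟩, x.2) else 0

theorem exF_pos (w : H.toW.Cell × ZMod m → F) {σ : Finset V} {x : H.X × ZMod m}
    (h : Clq adj σ ∧ σ ⊆ H.des x.1) : exF H m F w σ x = w (⟨(x.1, σ), h⟩, x.2) := by
  unfold exF
  rw [dif_pos h]

theorem exF_neg (w : H.toW.Cell × ZMod m → F) {σ : Finset V} {x : H.X × ZMod m}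
    (h : ¬ (Clq adj σ ∧ σ ⊆ H.des x.1)) : exF H m F w σ x = 0 := by
  unfold exF
  rw [dif_neg h]

/-- the isomorphism -/
def Phi : (H.toW.Cell × ZMod m → F) →ₗ[F] (Finset V → H.X × ZMod m → F) where
  toFun w := fun σ y => sgnL (covA H m) F σ.toList y *
    exF H m F w σ (topL (covA H m) σ.toList y)
  map_add' w w' := by
    funext σ y
    show sgnL (covA H m) F σ.toList y * exF H m F (w + w') σ (topL (covA H m) σ.toList y) =
      sgnL (covA H m) F σ.toList y * exF H m F w σ (topL (covA H m) σ.toList y) +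
      sgnL (covA H m) F σ.toList y * exF H m F w' σ (topL (covA H m) σ.toList y)
    rw [← mul_add]
    congr 1
    unfold exF
    split_ifs
    · rfl
    · rw [add_zero]
  map_smul' c w := by
    funext σ y
    show sgnL (covA H m) F σ.toList y * exF H m F (c • w) σ (topL (covA H m) σ.toList y) =
      c * (sgnL (covA H m) F σ.toList y * exF H m F w σ (topL (covA H m) σ.toList y))
    rw [mul_left_comm]
    congr 1
    unfold exF
    split_ifs
    · rfl
    · rw [mul_zero]

theorem Phi_apply (w : H.toW.Cell × ZMod m → F) (σ : Finset V) (y : H.X × ZMod m) :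
    Phi H m F w σ y = sgnL (covA H m) F σ.toList y *
      exF H m F w σ (topL (covA H m) σ.toList y) := rfl

theorem Phi_top (w : H.toW.Cell × ZMod m → F) {σ : Finset V} {y : H.X × ZMod m}
    (h : σ ⊆ H.des y.1) : Phi H m F w σ y = exF H m F w σ y := by
  have h1 : ∀ v ∈ σ.toList, v ∈ (covA H m).des y := fun v hv => h (Finset.mem_toList.1 hv)
  rw [Phi_apply, sgnL_of_subset _ _ _ _ h1, topL_of_subset _ _ _ h1, one_mul]

theorem Phi_not (w : H.toW.Cell × ZMod m → F) {σ : Finset V} (h : ¬ Clq adj σ) :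
    Phi H m F w σ = 0 := by
  funext y
  rw [Phi_apply, exF_neg H m F w (fun hh => h hh.1), mul_zero]
  rfl

theorem Phi_anti (w : H.toW.Cell × ZMod m → F) (σ : Finset V) {v : V} (hv : v ∈ σ)
    (y : H.X × ZMod m) : Phi H m F w σ (H.cov m v y) = - Phi H m F w σ y := by
  by_cases h : Clq adj σ
  · have h1 := sgnL_ρ_mem (covA H m) F σ.toList (gd_toList h) (Finset.mem_toList.2 hv) y
    have h2 := topL_ρ_mem (covA H m) σ.toList (gd_toList h) (Finset.mem_toList.2 hv) y
    rw [Phi_apply, Phi_apply]
    have h1' : sgnL (covA H m) F σ.toList (H.cov m v y) = - sgnL (covA H m) F σ.toList y := h1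
    have h2' : topL (covA H m) σ.toList (H.cov m v y) = topL (covA H m) σ.toList y := h2
    rw [h1', h2', neg_mul]
  · rw [Phi_not H m F w h]
    simp

theorem Phi_inj : Function.Injective (Phi H m F) := by
  rw [← LinearMap.ker_eq_bot, LinearMap.ker_eq_bot']
  intro w hw
  funext s
  obtain ⟨⟨⟨x, σ⟩, h⟩, i⟩ := s
  have h1 := congrFun (congrFun hw σ) (x, i)
  rw [Phi_top H m F w (y := (x, i)) h.2, exF_pos H m F w (x := (x, i)) h] at h1
  exact h1

theorem Phi_range (x : Finset V → H.X × ZMod m → F) :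
    x ∈ LinearMap.range (Phi H m F) ↔ AllCh adj (H.cov m) x := by
  constructor
  · rintro ⟨w, rfl⟩
    refine ⟨fun σ hσ => ?_, fun σ v hv y => Phi_anti H m F w σ hv y⟩
    by_contra h
    exact hσ (Phi_not H m F w h)
  · rintro ⟨h1, h2⟩
    refine ⟨fun s => x s.1.1.2 (s.1.1.1, s.2), ?_⟩
    funext σ y
    by_cases h : Clq adj σ
    · have h3 := anti_top (covA H m) F (x σ) σ.toList (gd_toList h)
        (fun v hv z => h2 σ v (Finset.mem_toList.1 hv) z) y
      rw [Phi_apply, h3]
      congr 1
      rw [exF_pos H m F _ ⟨h, fun v hv => mem_des_topL (covA H m) σ.toList (gd_toList h)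
        (Finset.mem_toList.2 hv) y⟩]
      rfl
    · rw [Phi_not H m F _ h]
      by_contra hne
      refine h (h1 σ fun h0 => hne ?_)
      rw [h0]

theorem Phi_deg (w : H.toW.Cell × ZMod m → F) (k : ℕ) :
    (∀ s : H.toW.Cell × ZMod m, s.1.1.2.card ≠ k → w s = 0) ↔
      ∀ σ, Phi H m F w σ ≠ 0 → σ.card = k := by
  constructor
  · intro h σ hσ
    by_contra hk
    apply hσ
    funext y
    rw [Phi_apply]
    by_cases h1 : Clq adj σ ∧ σ ⊆ H.des (topL (covA H m) σ.toList y).1
    · rw [exF_pos H m F w h1, h _ hk, mul_zero]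
      rfl
    · rw [exF_neg H m F w h1, mul_zero]
      rfl
  · intro h s hs
    obtain ⟨⟨⟨x, σ⟩, h0⟩, i⟩ := s
    have h1 : Phi H m F w σ = 0 := by
      by_contra hne
      exact hs (h σ hne)
    have h2 := congrFun h1 (x, i)
    rw [Phi_top H m F w (y := (x, i)) h0.2, exF_pos H m F w (x := (x, i)) h0] at h2
    exact h2

/-! ### the boundary operator -/

theorem aeval_wr (x : H.X) (i j : ZMod m) :
    (Polynomial.aeval (shiftM m) ((Polynomial.X : Polynomial ℤ) ^ H.wr x) :
      Matrix (ZMod m) (ZMod m) ℤ) i j = if j = i + (H.wr x : ZMod m) then 1 else 0 := by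
  rw [map_pow, Polynomial.aeval_X]
  unfold HSet.wr
  split_ifs with h1 h2 h2
  · rw [pow_one]
    show (if j = i + 1 then (1 : ℤ) else 0) = 1
    rw [if_pos (by simpa using h2)]
  · rw [pow_one]
    show (if j = i + 1 then (1 : ℤ) else 0) = 0
    rw [if_neg (by simpa using h2)]
  · rw [pow_zero]
    have h3 : j = i := by simpa using h2
    rw [h3, Matrix.one_apply_eq]
  · rw [pow_zero]
    have h3 : j ≠ i := by simpa using h2
    rw [Matrix.one_apply_ne h3.symm]

/-- the point of a cell -/
def pt (s : H.toW.Cell × ZMod m) : H.X × ZMod m := (s.1.1.1, s.2)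

theorem sum_exF (w : H.toW.Cell × ZMod m → F) (σ : Finset V) (p : H.X × ZMod m) :
    ∑ s : H.toW.Cell × ZMod m, w s * (if s.1.1.2 = σ then
      (if pt H m s = p then (1 : F) else 0) else 0) = exF H m F w σ p := by
  by_cases h : Clq adj σ ∧ σ ⊆ H.des p.1
  · rw [exF_pos H m F w h, Finset.sum_eq_single ((⟨(p.1, σ), h⟩, p.2) : H.toW.Cell × ZMod m)]
    · have h1 : pt H m ((⟨(p.1, σ), h⟩, p.2) : H.toW.Cell × ZMod m) = p := rfl
      rw [if_pos rfl, if_pos h1, mul_one]
    · intro s _ hs
      by_cases h1 : s.1.1.2 = σ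
      · by_cases h2 : pt H m s = p
        · exfalso
          have h3 : s.1.1.1 = p.1 := congrArg Prod.fst h2
          have h4 : s.2 = p.2 := congrArg Prod.snd h2
          exact hs (Prod.ext (Subtype.ext (Prod.ext h3 h1)) h4)
        · rw [if_pos h1, if_neg h2, mul_zero]
      · rw [if_neg h1, mul_zero]
    · intro h1
      exact absurd (Finset.mem_univ _) h1
  · rw [exF_neg H m F w h]
    refine Finset.sum_eq_zero fun s _ => ?_
    by_cases h1 : s.1.1.2 = σ
    · by_cases h2 : pt H m s = p
      · exfalso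
        apply h
        rw [← h1, ← h2]
        exact s.1.2
      · rw [if_pos h1, if_neg h2, mul_zero]
    · rw [if_neg h1, mul_zero]

/-- the lower neighbour, one step back -/
def low (v : V) (z : H.X × ZMod m) : H.X × ZMod m :=
  (H.ρ v z.1, z.2 - (H.wr (H.ρ v z.1) : ZMod m))

theorem entry (o : V → ℕ) (ho : Function.Injective o) (s t : H.toW.Cell × ZMod m) :
    ((cyc (H.Mor o ho) m).D s t : ℤ) = ∑ v ∈ s.1.1.2, if t.1.1.2 = s.1.1.2.erase v then
      (sg o v (s.1.1.2.erase v)) *
        ((if pt H m s = pt H m t then (1 : ℤ) else 0) -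
         (if pt H m s = low H m v (pt H m t) then (1 : ℤ) else 0))
      else 0 := by
  have h0 : ((cyc (H.Mor o ho) m).D s t : ℤ) =
      (Polynomial.aeval (shiftM m) (H.toW.mat o s.1 t.1) : Matrix (ZMod m) (ZMod m) ℤ) s.2 t.2 :=
    rfl
  rw [h0]
  unfold WSet.mat
  rw [map_sum, Matrix.sum_apply]
  refine Finset.sum_congr rfl fun v hv => ?_
  by_cases h1 : t.1.1.2 = s.1.1.2.erase v
  · rw [if_pos h1, if_pos h1]
    have h2 : ∀ (a b : Polynomial ℤ), (Polynomial.aeval (shiftM m)
        (((sg o v (s.1.1.2.erase v) : ℤ) : Polynomial ℤ) * (a - b)) :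
        Matrix (ZMod m) (ZMod m) ℤ) s.2 t.2 = sg o v (s.1.1.2.erase v) *
        ((Polynomial.aeval (shiftM m) a : Matrix (ZMod m) (ZMod m) ℤ) s.2 t.2 -
          (Polynomial.aeval (shiftM m) b : Matrix (ZMod m) (ZMod m) ℤ) s.2 t.2) := by
      intro a b
      have h3 : ((sg o v (s.1.1.2.erase v) : ℤ) : Polynomial ℤ) * (a - b) =
          (sg o v (s.1.1.2.erase v) : ℤ) • (a - b) := by
        rw [zsmul_eq_mul]
      rw [h3, map_zsmul, map_sub, Matrix.smul_apply, Matrix.sub_apply, smul_eq_mul]
    refine (h2 _ _).trans ?_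
    congr 1
    congr 1
    · by_cases h4 : t.1.1.1 = s.1.1.1
      · rw [if_pos h4, map_one]
        by_cases h5 : s.2 = t.2
        · have h6 : pt H m s = pt H m t := Prod.ext h4.symm h5
          rw [if_pos h6, h5]
          exact Matrix.one_apply_eq _
        · have h6 : ¬ pt H m s = pt H m t := by
            intro hh
            have h8 : (pt H m s).2 = (pt H m t).2 := congrArg Prod.snd hh
            exact h5 h8
          rw [if_neg h6]
          exact Matrix.one_apply_ne h5
      · have h6 : ¬ pt H m s = pt H m t := fun hh => h4 (congrArg Prod.fst hh).symm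
        rw [if_neg h4, map_zero, if_neg h6]
        rfl
    · by_cases h4 : t.1.1.1 = H.ρ v s.1.1.1
      · have h4' : t.1.1.1 = H.toW.ρ v s.1.1.1 := h4
        rw [if_pos h4']
        have h7 : H.ρ v t.1.1.1 = s.1.1.1 := by
          rw [h4]
          exact H.ρρ v s.1.1.1
        refine (aeval_wr H m s.1.1.1 s.2 t.2).trans ?_
        by_cases h5 : t.2 = s.2 + (H.wr s.1.1.1 : ZMod m)
        · have h6 : pt H m s = low H m v (pt H m t) := by
            refine Prod.ext h7.symm ?_
            show s.2 = t.2 - (H.wr (H.ρ v t.1.1.1) : ZMod m)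
            rw [h7, h5, add_sub_cancel_right]
          rw [if_pos h5, if_pos h6]
        · have h6 : ¬ pt H m s = low H m v (pt H m t) := by
            intro hh
            apply h5
            have h8 : s.2 = t.2 - (H.wr (H.ρ v t.1.1.1) : ZMod m) := congrArg Prod.snd hh
            rw [h7] at h8
            rw [h8, sub_add_cancel]
          rw [if_neg h5, if_neg h6]
      · have h4' : ¬ t.1.1.1 = H.toW.ρ v s.1.1.1 := h4
        have h6 : ¬ pt H m s = low H m v (pt H m t) := by
          intro hh
          apply h4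
          have h8 : s.1.1.1 = H.ρ v t.1.1.1 := congrArg Prod.fst hh
          rw [h8]
          exact (H.ρρ v t.1.1.1).symm
        rw [if_neg h4', map_zero, if_neg h6]
        rfl
  · rw [if_neg h1, if_neg h1, map_zero]
    rfl

theorem vecMul_eq (o : V → ℕ) (ho : Function.Injective o) (w : H.toW.Cell × ZMod m → F)
    (t : H.toW.Cell × ZMod m) :
    Matrix.vecMul w ((cyc (H.Mor o ho) m).D.map (Int.castRingHom F)) t =
      ∑ v ∈ Finset.univ \ t.1.1.2, ((sg o v t.1.1.2 : ℤ) : F) *
        (exF H m F w (insert v t.1.1.2) (pt H m t) -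
          exF H m F w (insert v t.1.1.2) (low H m v (pt H m t))) := by
  have h0 : Matrix.vecMul w ((cyc (H.Mor o ho) m).D.map (Int.castRingHom F)) t =
      ∑ s : H.toW.Cell × ZMod m, w s * (((cyc (H.Mor o ho) m).D s t : ℤ) : F) := rfl
  have h1 : ∀ s : H.toW.Cell × ZMod m, w s * (((cyc (H.Mor o ho) m).D s t : ℤ) : F) =
      ∑ v ∈ Finset.univ \ t.1.1.2, ((sg o v t.1.1.2 : ℤ) : F) *
        (w s * (if s.1.1.2 = insert v t.1.1.2 then
          (if pt H m s = pt H m t then (1 : F) else 0) else 0) -
        w s * (if s.1.1.2 = insert v t.1.1.2 then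
          (if pt H m s = low H m v (pt H m t) then (1 : F) else 0)
          else 0)) := by
    intro s
    rw [entry, Int.cast_sum, Finset.mul_sum]
    have h2 : ∀ v : V, (v ∈ s.1.1.2 ∧ t.1.1.2 = s.1.1.2.erase v) ↔
        (v ∈ Finset.univ \ t.1.1.2 ∧ s.1.1.2 = insert v t.1.1.2) := by
      intro v
      constructor
      · rintro ⟨h3, h4⟩
        refine ⟨?_, ?_⟩
        · rw [h4]; simp
        · rw [h4, Finset.insert_erase h3]
      · rintro ⟨h3, h4⟩
        have h5 : v ∉ t.1.1.2 := by simpa using h3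
        refine ⟨by rw [h4]; exact Finset.mem_insert_self _ _, ?_⟩
        rw [h4, Finset.erase_insert h5]
    have h3 : ∀ f : V → F, ∑ v ∈ s.1.1.2, (if t.1.1.2 = s.1.1.2.erase v then f v else 0) =
        ∑ v ∈ Finset.univ \ t.1.1.2, (if s.1.1.2 = insert v t.1.1.2 then f v else 0) := by
      intro f
      rw [← Finset.sum_filter, ← Finset.sum_filter]
      refine Finset.sum_congr ?_ fun _ _ => rfl
      ext v
      rw [Finset.mem_filter, Finset.mem_filter]
      exact h2 v
    have h4 : ∀ v ∈ s.1.1.2, w s * (((if t.1.1.2 = s.1.1.2.erase v then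
      (sg o v (s.1.1.2.erase v)) *
        ((if pt H m s = pt H m t then (1 : ℤ) else 0) -
         (if pt H m s = low H m v (pt H m t) then (1 : ℤ) else 0))
      else 0 : ℤ)) : F) = if t.1.1.2 = s.1.1.2.erase v then
        ((sg o v t.1.1.2 : ℤ) : F) * (w s *
          (if pt H m s = pt H m t then (1 : F) else 0) - w s *
          (if pt H m s = low H m v (pt H m t) then (1 : F) else 0))
        else 0 := by
      intro v _
      by_cases h5 : t.1.1.2 = s.1.1.2.erase v
      · rw [if_pos h5, if_pos h5, ← h5]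
        push_cast
        ring
      · rw [if_neg h5, if_neg h5, Int.cast_zero, mul_zero]
    rw [Finset.sum_congr rfl h4, h3]
    refine Finset.sum_congr rfl fun v _ => ?_
    by_cases h5 : s.1.1.2 = insert v t.1.1.2
    · rw [if_pos h5, if_pos h5, if_pos h5]
    · rw [if_neg h5, if_neg h5, if_neg h5]
      ring
  rw [h0, Finset.sum_congr rfl fun s _ => h1 s, Finset.sum_comm]
  refine Finset.sum_congr rfl fun v _ => ?_
  rw [← Finset.mul_sum, Finset.sum_sub_distrib, sum_exF, sum_exF]

theorem Phi_insert (w : H.toW.Cell × ZMod m → F) {τ : Finset V} {z : H.X × ZMod m}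
    (hz : τ ⊆ H.des z.1) {v : V} (hv : v ∉ τ) : Phi H m F w (insert v τ) z =
      exF H m F w (insert v τ) z - exF H m F w (insert v τ) (low H m v z) := by
  by_cases h : Clq adj (insert v τ)
  · by_cases h1 : v ∈ H.des z.1
    · have h2 : insert v τ ⊆ H.des z.1 := Finset.insert_subset h1 hz
      rw [Phi_top H m F w h2, exF_neg H m F w (x := low H m v z), sub_zero]
      rintro ⟨_, h3⟩
      exact (H.des_self v z.1).1 (h3 (Finset.mem_insert_self _ _)) h1
    · have h2 : insert v τ ⊆ H.des (low H m v z).1 := by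
        refine Finset.insert_subset ((H.des_self v z.1).2 h1) fun u hu => ?_
        have h3 : u ≠ v := fun hh => hv (hh ▸ hu)
        exact (H.des_ne u v (h u (Finset.mem_insert_of_mem hu) v (Finset.mem_insert_self _ _) h3)
          z.1).2 (hz hu)
      have h3 := Phi_anti H m F w (insert v τ) (Finset.mem_insert_self v τ) z
      rw [cov_neg H m h1] at h3
      have h4 : Phi H m F w (insert v τ) (low H m v z) = exF H m F w (insert v τ) (low H m v z) :=
        Phi_top H m F w h2
      have h5 : exF H m F w (insert v τ) z = 0 :=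
        exF_neg H m F w fun hh => h1 (hh.2 (Finset.mem_insert_self _ _))
      have h6 : Phi H m F w (insert v τ) (low H m v z) = - Phi H m F w (insert v τ) z := h3
      rw [h5, ← h4, h6]
      ring
  · rw [Phi_not H m F w h, exF_neg H m F w (fun hh => h hh.1),
      exF_neg H m F w (fun hh => h hh.1), sub_zero]
    rfl

theorem Phi_bd (o : V → ℕ) (ho : Function.Injective o) (w : H.toW.Cell × ZMod m → F) :
    Phi H m F (Matrix.vecMul w ((cyc (H.Mor o ho) m).D.map (Int.castRingHom F))) =
      bd F o (H.X × ZMod m) (Phi H m F w) := by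
  funext τ z
  by_cases h : Clq adj τ
  · have hR : ∀ u ∈ τ.toList, ∀ y, bd F o (H.X × ZMod m) (Phi H m F w) τ ((covA H m).ρ u y) =
        - bd F o (H.X × ZMod m) (Phi H m F w) τ y := by
      intro u hu y
      rw [bd_apply, bd_apply, ← Finset.sum_neg_distrib]
      refine Finset.sum_congr rfl fun v _ => ?_
      have h1 := Phi_anti H m F w (insert v τ)
        (Finset.mem_insert_of_mem (Finset.mem_toList.1 hu)) y
      have h2 : Phi H m F w (insert v τ) ((covA H m).ρ u y) =
        - Phi H m F w (insert v τ) y := h1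
      rw [h2, mul_neg]
    have hL : ∀ u ∈ τ.toList, ∀ y, Phi H m F (Matrix.vecMul w
        ((cyc (H.Mor o ho) m).D.map (Int.castRingHom F))) τ ((covA H m).ρ u y) =
        - Phi H m F (Matrix.vecMul w
          ((cyc (H.Mor o ho) m).D.map (Int.castRingHom F))) τ y := fun u hu y =>
      Phi_anti H m F _ τ (Finset.mem_toList.1 hu) y
    rw [anti_top (covA H m) F _ τ.toList (gd_toList h) hR z,
      anti_top (covA H m) F _ τ.toList (gd_toList h) hL z]
    congr 1
    have hz : τ ⊆ H.des (topL (covA H m) τ.toList z).1 := fun v hv =>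
      mem_des_topL (covA H m) τ.toList (gd_toList h) (Finset.mem_toList.2 hv) z
    generalize topL (covA H m) τ.toList z = z' at hz ⊢
    have hz' : τ ⊆ H.des (z' : H.X × ZMod m).1 := hz
    refine ((Phi_top H m F _ hz').trans (exF_pos H m F _ ⟨h, hz'⟩)).trans ?_
    refine (vecMul_eq H m F o ho w (⟨(z'.1, τ), ⟨h, hz'⟩⟩, z'.2)).trans ?_
    rw [bd_apply]
    refine Finset.sum_congr rfl fun v hv => ?_
    have hv' : v ∉ τ := by simpa using hv
    rw [Phi_insert H m F w hz' hv']
    rfl
  · rw [Phi_not H m F _ h, bd_apply]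
    symm
    refine Finset.sum_eq_zero fun v _ => ?_
    rw [Phi_not H m F w (σ := insert v τ) (fun hh => h fun a ha b hb hab =>
      hh a (Finset.mem_insert_of_mem ha) b (Finset.mem_insert_of_mem hb) hab)]
    show _ * (0 : F) = 0
    rw [mul_zero]

end cyc

end MCY

/-- MCY: the cyclic quotients of the Morse complex are models of the cyclic covers. -/
theorem mcy : MCYStmt := by
  intro V _ _ adj H o ho m _ F _
  exact ⟨MCY.Phi H m F, MCY.Phi_inj H m F, MCY.Phi_range H m F, MCY.Phi_deg H m F,
    MCY.Phi_bd H m F o ho⟩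

end Pool.LU
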