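import Pool.Agent.H99.LU.CDefs

/-!
Project LU, part A: the flag triangulation `P17` of the Moore space `M(ℤ/3, 1)` with 17 vertices
and 36 triangles. Vertices: `0, 1` (colour 0), `2, 3` (colour 1), the ring `4, ..., 15` (even:
colour 2, odd: colour 0), the centre `16` (colour 1).
-/

set_option autoImplicit false

open scoped BigOperators

namespace Pool.LU.P17

/-- the neighbours of `a`, as a bit vector -/
def row (a : Fin 17) : ℕ :=
  ![4380, 17484, 30579, 56787, 98349, 65620, 65710, 65864, 66189, 66820, 68110, 70664, 75789,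
    86020, 106510, 81944, 65520] a

/-- the graph -/
def adj (a b : Fin 17) : Prop := (row a).testBit b.1 = true

instance : DecidableRel adj := fun a b => inferInstanceAs (Decidable ((row a).testBit b.1 = true))

/-- the bit vectors of the triangles with coefficient `1` -/
def posM : List ℕ := [25, 265, 4105, 70, 1030, 16390, 52, 100, 772, 1540, 12292, 24580, 200, 392,
  3080, 6152, 49160, 98320]

/-- the bit vectors of the triangles with coefficient `-1` -/
def negM : List ℕ := [21, 261, 4101, 74, 1034, 16394, 32792, 65584, 65632, 65728, 65920, 66304,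
  67072, 68608, 71680, 77824, 90112, 114688]

/-- the coefficient of the simplex with the bit vector `m` -/
def zI (m : ℕ) : ℤ := if m ∈ posM then 1 else if m ∈ negM then -1 else 0

theorem symm : ∀ a b, adj a b → adj b a := by decide

theorem irrefl : ∀ a, ¬ adj a a := by decide

theorem no4 : ∀ a b c : Fin 17, adj a b → adj a c → adj b c → row a &&& row b &&& row c = 0 := by
  decide +kernel

theorem cycI : ∀ a b : Fin 17, a < b → (∑ v : Fin 17, if v = a ∨ v = b then 0 else
    (if a < v then -1 else 1) * (if b < v then -1 else 1) * zI (2 ^ v.1 + 2 ^ a.1 + 2 ^ b.1)) % 3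
    = 0 := by
  decide +kernel

theorem supp3 : ∀ a b c : Fin 17, a ≠ b → a ≠ c → b ≠ c →
    zI (2 ^ a.1 + 2 ^ b.1 + 2 ^ c.1) ≠ 0 → adj a b ∧ adj a c ∧ adj b c := by
  decide +kernel

/-- the bit vector of a set of vertices -/
def mask (σ : Finset (Fin 17)) : ℕ := ∑ v ∈ σ, 2 ^ v.1

/-- the cycle modulo 3 -/
def z (σ : Finset (Fin 17)) (_ : Unit) : ZMod 3 := if σ.card = 3 then (zI (mask σ) : ZMod 3) else 0

theorem mask3 {a b c : Fin 17} (h1 : a ≠ b) (h2 : a ≠ c) (h3 : b ≠ c) :
    mask {a, b, c} = 2 ^ a.1 + 2 ^ b.1 + 2 ^ c.1 := by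
  unfold mask
  rw [Finset.sum_insert (by simp [h1, h2]), Finset.sum_insert (by simp [h3]),
    Finset.sum_singleton, add_assoc]

theorem z3 {a b c : Fin 17} (h1 : a ≠ b) (h2 : a ≠ c) (h3 : b ≠ c) (u : Unit) :
    z {a, b, c} u = (zI (2 ^ a.1 + 2 ^ b.1 + 2 ^ c.1) : ZMod 3) := by
  unfold z
  rw [if_pos (Finset.card_eq_three.2 ⟨a, b, c, h1, h2, h3, rfl⟩), mask3 h1 h2 h3]

theorem z_ne : z ≠ 0 := by
  intro h
  have h1 := congrFun (congrFun h {0, 3, 4}) ()
  rw [z3 (by decide) (by decide) (by decide)] at h1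
  revert h1
  have : zI (2 ^ (0 : Fin 17).1 + 2 ^ (3 : Fin 17).1 + 2 ^ (4 : Fin 17).1) = 1 := by decide
  rw [this]
  simp

theorem z_supp (σ : Finset (Fin 17)) (h : z σ ≠ 0) : σ.card = 3 ∧ Clq adj σ := by
  have h0 : ∃ u, z σ u ≠ 0 := by
    by_contra hc
    push Not at hc
    exact h (funext hc)
  obtain ⟨u, hu⟩ := h0
  have h1 : σ.card = 3 := by
    by_contra hc
    exact hu (if_neg hc)
  refine ⟨h1, ?_⟩
  obtain ⟨a, b, c, hab, hac, hbc, rfl⟩ := Finset.card_eq_three.1 h1
  rw [z3 hab hac hbc] at hu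
  have h2 : zI (2 ^ a.1 + 2 ^ b.1 + 2 ^ c.1) ≠ 0 := by
    intro h3
    rw [h3] at hu
    simp at hu
  obtain ⟨e1, e2, e3⟩ := supp3 a b c hab hac hbc h2
  intro x hx y hy hxy
  simp only [Finset.mem_insert, Finset.mem_singleton] at hx hy
  rcases hx with rfl | rfl | rfl <;> rcases hy with rfl | rfl | rfl <;>
    first | exact absurd rfl hxy | assumption | exact symm _ _ (by assumption)

theorem dim (σ : Finset (Fin 17)) (h : Clq adj σ) : σ.card ≤ 3 := by
  by_contra hc
  push Not at hc
  obtain ⟨a, ha⟩ : σ.Nonempty := Finset.card_pos.1 (by omega)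
  have c1 : 2 < (σ.erase a).card := by rw [Finset.card_erase_of_mem ha]; omega
  obtain ⟨b, c, d, hb, hc', hd, hbc, hbd, hcd⟩ := Finset.two_lt_card_iff.1 c1
  rw [Finset.mem_erase] at hb hc' hd
  have h1 := no4 a b c (h a ha b hb.2 hb.1.symm) (h a ha c hc'.2 hc'.1.symm)
    (h b hb.2 c hc'.2 hbc)
  have e1 : (row a).testBit d.1 = true := h a ha d hd.2 hd.1.symm
  have e2 : (row b).testBit d.1 = true := h b hb.2 d hd.2 hbd
  have e3 : (row c).testBit d.1 = true := h c hc'.2 d hd.2 hcd
  have h2 : (row a &&& row b &&& row c).testBit d.1 = true := by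
    rw [Nat.testBit_and, Nat.testBit_and, e1, e2, e3]
    rfl
  rw [h1] at h2
  simp at h2

theorem sg_pair {a b v : Fin 17} (hab : a ≠ b) :
    sg (fun x : Fin 17 => x.1) v {a, b} =
      (if a < v then -1 else 1) * (if b < v then -1 else 1) := by
  unfold sg
  rw [Finset.filter_insert, Finset.filter_singleton]
  by_cases h1 : a < v <;> by_cases h2 : b < v
  · have h1' : a.1 < v.1 := h1
    have h2' : b.1 < v.1 := h2
    simp only [h1, h2, h1', h2', if_true]
    rw [Finset.card_insert_of_notMem (by simp [hab]), Finset.card_singleton]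
    norm_num
  · have h1' : a.1 < v.1 := h1
    have h2' : ¬ b.1 < v.1 := h2
    simp only [h1, h2, h1', h2', if_true, if_false]
    simp
  · have h1' : ¬ a.1 < v.1 := h1
    have h2' : b.1 < v.1 := h2
    simp only [h1, h2, h1', h2', if_true, if_false]
    simp
  · have h1' : ¬ a.1 < v.1 := h1
    have h2' : ¬ b.1 < v.1 := h2
    simp only [h1, h2, h1', h2', if_false]
    simp

theorem cyc_pair {a b : Fin 17} (hab : a < b) (u : Unit) :
    bd (ZMod 3) (fun x : Fin 17 => x.1) Unit z {a, b} u = 0 := by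
  rw [bd_apply]
  have e1 : ∑ v ∈ Finset.univ \ {a, b}, (sg (fun x : Fin 17 => x.1) v {a, b} : ZMod 3) *
      z (insert v {a, b}) u = ∑ v ∈ Finset.univ \ {a, b},
      (((if a < v then -1 else 1) * (if b < v then -1 else 1) *
        zI (2 ^ v.1 + 2 ^ a.1 + 2 ^ b.1) : ℤ) : ZMod 3) := by
    refine Finset.sum_congr rfl fun v hv => ?_
    simp only [Finset.mem_sdiff, Finset.mem_univ, true_and, Finset.mem_insert,
      Finset.mem_singleton, not_or] at hv
    rw [z3 hv.1 hv.2 hab.ne, sg_pair hab.ne]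
    push_cast
    ring
  rw [e1, ← Int.cast_sum]
  have e2 : ∑ v ∈ Finset.univ \ {a, b}, ((if a < v then -1 else 1) * (if b < v then -1 else 1) *
        zI (2 ^ v.1 + 2 ^ a.1 + 2 ^ b.1)) = ∑ v : Fin 17, if v = a ∨ v = b then 0 else
    (if a < v then -1 else 1) * (if b < v then -1 else 1) *
      zI (2 ^ v.1 + 2 ^ a.1 + 2 ^ b.1) := by
    have e3 : ∀ f : Fin 17 → ℤ, ∑ v : Fin 17, (if v = a ∨ v = b then 0 else f v) =
        ∑ v ∈ Finset.univ \ {a, b}, f v := by
      intro f
      have e4 : ∀ v, (if v = a ∨ v = b then 0 else f v) =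
          if v ∈ (Finset.univ \ {a, b} : Finset (Fin 17)) then f v else 0 := by
        intro v
        by_cases h : v = a ∨ v = b
        · rw [if_pos h, if_neg]
          simp only [Finset.mem_sdiff, Finset.mem_univ, true_and, Finset.mem_insert,
            Finset.mem_singleton, not_not]
          exact h
        · rw [if_neg h, if_pos]
          simp only [Finset.mem_sdiff, Finset.mem_univ, true_and, Finset.mem_insert,
            Finset.mem_singleton]
          exact h
      simp only [e4]
      rw [← Finset.sum_filter]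
      congr 1
      ext v
      simp
    rw [e3]
  rw [e2]
  exact (ZMod.intCast_zmod_eq_zero_iff_dvd _ 3).2 (Int.dvd_of_emod_eq_zero (cycI a b hab))

theorem z_cyc : bd (ZMod 3) (fun x : Fin 17 => x.1) Unit z = 0 := by
  funext τ u
  show bd (ZMod 3) (fun x : Fin 17 => x.1) Unit z τ u = 0
  by_cases h : τ.card = 2
  · obtain ⟨a, b, hab, rfl⟩ := Finset.card_eq_two.1 h
    rcases lt_or_gt_of_ne hab with h1 | h1
    · exact cyc_pair h1 u
    · rw [Finset.pair_comm]
      exact cyc_pair h1 u
  · rw [bd_apply]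
    refine Finset.sum_eq_zero fun v hv => ?_
    have hv' : v ∉ τ := by
      simp only [Finset.mem_sdiff, Finset.mem_univ, true_and] at hv
      exact hv
    have : z (insert v τ) u = 0 := by
      unfold z
      rw [if_neg]
      rw [Finset.card_insert_of_notMem hv']
      omega
    rw [this, mul_zero]

end Pool.LU.P17
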