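import Pool.Agent.H13.LU.P17
import Pool.Agent.H70.LU.Star
import Pool.Agent.H68.LU.Glue
import Pool.Agent.H41.LU.B2Main

/-!
Project LU, part A, assembly: an odd map without zeros on the deleted join of the octahedralisation
of `P17` gives the data `PartA`.
-/

set_option autoImplicit false

open scoped BigOperators
open Finset

noncomputable section

namespace Pool.LU

open Retract

/-- the graph of the octahedralisation of `P17` -/
def OAdj (x y : Fin 17 × Bool) : Prop := P17.adj x.1 y.1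

/-- the complex of the cliques of `OAdj` -/
def OK : Set (Finset (Fin 17 × Bool)) := {s | IsCl OAdj s}

/-- the odd map -/
def Z2Map : Prop := ∃ F : (Fin 17 × Bool → ℝ) → Fin 5 → ℝ, ContinuousOn F (DJ OK) ∧
  (∀ u ∈ DJ OK, F (-u) = - F u) ∧ ∀ u ∈ DJ OK, u ≠ 0 → F u ≠ 0

theorem mem_OK_of {u : Fin 17 × Bool → ℝ}
    (h : ∀ x y, 0 < u x → 0 < u y → x ≠ y → OAdj x y) : pos u ∈ OK := by
  intro x hx y hy hxy
  rw [mem_pos] at hx hy
  exact h x y hx hy hxy

/-- the vectors -/
theorem partA_vectors (h : Z2Map) : ∃ (G : Type) (_ : Fintype G) (_ : DecidableEq G) (E : Type)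
    (_ : AddCommGroup E) (_ : Module ℝ E) (_ : FiniteDimensional ℝ E)
    (w : (Fin 17 × Bool) ⊕ (G × Fin 3) → E),
    Module.finrank ℝ E = (5 + 2 * Fintype.card G) + 1 ∧ Submodule.span ℝ (Set.range w) = ⊤ ∧
    StarC (JoinAdj OAdj) w := by
  obtain ⟨F, hF1, hF2, hF3⟩ := h
  have hK : ∀ s ∈ OK, ∀ t, t ⊆ s → t ∈ OK := fun s hs t hts x hx y hy hxy =>
    hs x (hts hx) y (hts hy) hxy
  have hne : OK.Nonempty := ⟨∅, fun x hx => absurd hx (Finset.notMem_empty x)⟩
  obtain ⟨G, iG, dG, P, a, b, hP⟩ := partA_circuits OK hK hne F hF1 hF2 hF3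
  obtain ⟨E, e1, e2, e3, w, hw1, hw2, hw3⟩ := starC_of_prog (d := 5) (by norm_num) OAdj P a b
    (fun u T hT hu hpos hsum => hP u T hT hu (mem_OK_of hpos) hsum)
  exact ⟨(G ⊕ Fin 5) × Bool, inferInstance, inferInstance, E, e1, e2, e3, w, hw1, hw2, hw3⟩

theorem OAdj_symm (x y : Fin 17 × Bool) (h : OAdj x y) : OAdj y x := P17.symm _ _ h

theorem JoinAdj_symm {G : Type} : ∀ u v : (Fin 17 × Bool) ⊕ (G × Fin 3),
    JoinAdj OAdj u v → JoinAdj OAdj v u
  | Sum.inl _, Sum.inl _ => fun h => OAdj_symm _ _ h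
  | Sum.inl _, Sum.inr _ => fun _ => trivial
  | Sum.inr _, Sum.inl _ => fun _ => trivial
  | Sum.inr _, Sum.inr _ => fun h => Ne.symm h

/-- Part A. -/
theorem partA_of (h : Z2Map) : Nonempty PartA := by
  obtain ⟨G, iG, dG, E, e1, e2, e3, w, hw1, hw2, hw3⟩ := partA_vectors h
  have hn : Module.finrank ℝ E = (2 * (2 + Fintype.card G) + 1) + 1 := by
    rw [hw1]; ring
  obtain ⟨N, fN, dN, P, hP, hadj⟩ := b2_main (2 * (2 + Fintype.card G) + 1) E
    ((Fin 17 × Bool) ⊕ (G × Fin 3)) (JoinAdj OAdj) w hn JoinAdj_symm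
    ⟨Sum.inl (0, true), Sum.inl (0, false), by simp, P17.irrefl 0⟩ hw2 hw3
  let e := (Fintype.equivFin G).symm
  have hirr : ∀ u, ¬ P.adj u u := fun u hu => hu.1 rfl
  refine ⟨{
    m := 2 + Fintype.card G
    V := ((Fin 17 × Bool) ⊕ (G × Fin 3)) ⊕ N
    P := P
    good := hP
    VL := Fin 17
    adjL := P17.adj
    symm := P17.symm
    irrefl := P17.irrefl
    oL := fun x => x.1
    oL_inj := Fin.val_injective
    z := P17.z
    z_ne := P17.z_ne
    z_supp := P17.z_supp
    z_cyc := P17.z_cyc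
    dim := P17.dim
    r := Fintype.card G
    hr := by ring
    j := fun x => Sum.inl (Sum.inl x)
    c := fun i k => Sum.inl (Sum.inr (e i, k))
    j_inj := fun x y hxy => Sum.inl_injective (Sum.inl_injective hxy)
    c_inj := ?_
    j_ne_c := fun x i k hx => by simp at hx
    adj_jj := ?_
    adj_jc := ?_
    adj_cc := ?_ }⟩
  · intro i i' k k' hik
    have h1 : (e i, k) = (e i', k') := Sum.inr_injective (Sum.inl_injective hik)
    exact ⟨e.injective (congrArg Prod.fst h1), congrArg Prod.snd h1⟩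
  · intro x y a b
    by_cases hxy : (x, a) = (y, b)
    · have h1 : x = y := congrArg Prod.fst hxy
      rw [hxy, h1]
      exact ⟨fun hh => absurd hh (hirr _), fun hh => absurd hh (P17.irrefl y)⟩
    · exact hadj _ _ (fun hh => hxy (Sum.inl_injective hh))
  · intro x i k
    exact (hadj _ _ (by simp)).2 trivial
  · intro i i' k k'
    by_cases hik : (e i, k) = (e i', k')
    · have h1 : i = i' := e.injective (congrArg Prod.fst hik)
      rw [hik]
      exact ⟨fun hh => absurd hh (hirr _), fun hh => absurd h1 hh⟩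
    · rw [hadj _ _ (fun hh => hik (Sum.inr_injective hh))]
      show e i ≠ e i' ↔ i ≠ i'
      exact e.injective.ne_iff

end Pool.LU
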