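import Pool.Agent.H85.LU.Z2Geo
import Pool.Agent.H85.LU.P17Facts
import Pool.Agent.H70.LU.Star
import Pool.Agent.H68.LU.Glue
import Pool.Agent.H41.LU.B2Main

/-!
Project LU, part A, final assembly: the data `PartA` exist (the 17-vertex Moore complex, the odd map
of helper85 on the deleted join of its octahedralisation, the circuits of helpers 68 and 70, the
polytope of part B2).
-/

set_option autoImplicit false

open scoped BigOperators
open Finset

noncomputable section

namespace Pool.LU.AMain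

open Pool.LU Pool.LU.Retract

/-- the graph of the octahedralisation of the complex -/
def OA (x y : Fin 17 × Bool) : Prop := Z2.adjL x.1 y.1

/-- the complex of the cliques of `OA` -/
def OC : Set (Finset (Fin 17 × Bool)) := {s | ∀ x ∈ s, ∀ y ∈ s, x ≠ y → OA x y}

theorem z2 : ∃ F : (Fin 17 × Bool → ℝ) → Fin 5 → ℝ, ContinuousOn F (DJ OC) ∧
    (∀ u ∈ DJ OC, F (-u) = - F u) ∧ ∀ u ∈ DJ OC, u ≠ 0 → F u ≠ 0 := by
  obtain ⟨F, h1, h2, h3⟩ := Z2.z2map
  refine ⟨F, h1.continuousOn, fun u _ => h2 u, fun u hu hu0 => h3 u hu0 ?_ ?_⟩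
  · intro x hx y hy hxy
    exact hu.1 x ((mem_pos u x).2 hx) y ((mem_pos u y).2 hy) hxy
  · intro x hx y hy hxy
    refine hu.2 x ((mem_pos (-u) x).2 ?_) y ((mem_pos (-u) y).2 ?_) hxy
    · have : u x < 0 := hx
      simpa using this
    · have : u y < 0 := hy
      simpa using this

/-- the vectors -/
theorem vectors : ∃ (G : Type) (_ : Fintype G) (_ : DecidableEq G) (E : Type)
    (_ : AddCommGroup E) (_ : Module ℝ E) (_ : FiniteDimensional ℝ E)
    (w : (Fin 17 × Bool) ⊕ (G × Fin 3) → E),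
    Module.finrank ℝ E = (5 + 2 * Fintype.card G) + 1 ∧ Submodule.span ℝ (Set.range w) = ⊤ ∧
    StarC (JoinAdj OA) w := by
  obtain ⟨F, hF1, hF2, hF3⟩ := z2
  have hK : ∀ s ∈ OC, ∀ t, t ⊆ s → t ∈ OC := fun s hs t hts x hx y hy hxy =>
    hs x (hts hx) y (hts hy) hxy
  have hne : OC.Nonempty := ⟨∅, fun x hx => absurd hx (Finset.notMem_empty x)⟩
  obtain ⟨G, iG, dG, P, a, b, hP⟩ := partA_circuits OC hK hne F hF1 hF2 hF3
  obtain ⟨E, e1, e2, e3, w, hw1, hw2, hw3⟩ := starC_of_prog (d := 5) (by norm_num) OA P a b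
    (fun u T hT hu hpos hsum => hP u T hT hu
      (fun x hx y hy hxy => hpos x y ((mem_pos u x).1 hx) ((mem_pos u y).1 hy) hxy) hsum)
  exact ⟨(G ⊕ Fin 5) × Bool, inferInstance, inferInstance, E, e1, e2, e3, w, hw1, hw2, hw3⟩

theorem OA_symm (x y : Fin 17 × Bool) (h : OA x y) : OA y x := Z2.adjL_symm _ _ h

theorem JoinAdj_symm {G : Type} : ∀ u v : (Fin 17 × Bool) ⊕ (G × Fin 3),
    JoinAdj OA u v → JoinAdj OA v u
  | Sum.inl _, Sum.inl _ => fun h => OA_symm _ _ h
  | Sum.inl _, Sum.inr _ => fun _ => trivial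
  | Sum.inr _, Sum.inl _ => fun _ => trivial
  | Sum.inr _, Sum.inr _ => fun h => Ne.symm h

/-- Part A of project LU, no hypothesis left. -/
theorem partA : Nonempty PartA := by
  obtain ⟨G, iG, dG, E, e1, e2, e3, w, hw1, hw2, hw3⟩ := vectors
  have hn : Module.finrank ℝ E = (2 * (2 + Fintype.card G) + 1) + 1 := by
    rw [hw1]; ring
  obtain ⟨N, fN, dN, P, hP, hadj⟩ := b2_main (2 * (2 + Fintype.card G) + 1) E
    ((Fin 17 × Bool) ⊕ (G × Fin 3)) (JoinAdj OA) w hn JoinAdj_symm
    ⟨Sum.inl (0, true), Sum.inl (0, false), by simp, Z2.adjL_irrefl 0⟩ hw2 hw3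
  let e := (Fintype.equivFin G).symm
  have hirr : ∀ u, ¬ P.adj u u := fun u hu => hu.1 rfl
  refine ⟨{
    m := 2 + Fintype.card G
    V := ((Fin 17 × Bool) ⊕ (G × Fin 3)) ⊕ N
    P := P
    good := hP
    VL := Fin 17
    adjL := Z2.adjL
    symm := Z2.adjL_symm
    irrefl := Z2.adjL_irrefl
    oL := fun x => x.1
    oL_inj := Fin.val_injective
    z := Z2.z
    z_ne := Z2.z_ne
    z_supp := Z2.z_supp
    z_cyc := Z2.z_cyc
    dim := Z2.adjL_dim
    r := Fintype.card G
    hr := by ring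
    j := fun x => Sum.inl (Sum.inl x)
    c := fun i k => Sum.inl (Sum.inr (e i, k))
    j_inj := fun x y hxy => Sum.inl_injective (Sum.inl_injective hxy)
    c_inj := ?_
    j_ne_c := fun x i k hx => by simp at hx
    adj_jj := ?_
    adj_jc := ?_
    adj_cc := ?_ }⟩
  · intro i i' k k' hik
    have h1 : (e i, k) = (e i', k') := Sum.inr_injective (Sum.inl_injective hik)
    exact ⟨e.injective (congrArg Prod.fst h1), congrArg Prod.snd h1⟩
  · intro x y a b
    by_cases hxy : (x, a) = (y, b)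
    · have h1 : x = y := congrArg Prod.fst hxy
      rw [hxy, h1]
      exact ⟨fun hh => absurd hh (hirr _), fun hh => absurd hh (Z2.adjL_irrefl y)⟩
    · exact hadj _ _ (fun hh => hxy (Sum.inl_injective hh))
  · intro x i k
    exact (hadj _ _ (by simp)).2 trivial
  · intro i i' k k'
    by_cases hik : (e i, k) = (e i', k')
    · have h1 : i = i' := e.injective (congrArg Prod.fst hik)
      rw [hik]
      exact ⟨fun hh => absurd hh (hirr _), fun hh => absurd h1 hh⟩
    · rw [hadj _ _ (fun hh => hik (Sum.inr_injective hh))]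
      show e i ≠ e i' ↔ i ≠ i'
      exact e.injective.ne_iff

end Pool.LU.AMain
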